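import Pool.Agent.TH705.SM.CltB
import Pool.Agent.TH705.SM.Corr

set_option autoImplicit false

/-!
# Products of different observables along the orbits of the standard map
-/

namespace Pool.Agent.X100.SM

open Real MeasureTheory Function Pool.Agent.TH705.SM

/-- the product of `f 1 (x_1), ..., f m (x_m)` -/
noncomputable def PP (a s : ℝ) (f : ℕ → ℝ → ℝ) : ℕ → ℝ → ℝ
  | 0, _ => 1
  | m + 1, t => PP a s f m t * f (m + 1) (X a s (m + 1) t)

/-- its derivative -/
noncomputable def PP' (a s : ℝ) (f f' : ℕ → ℝ → ℝ) : ℕ → ℝ → ℝ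
  | 0, _ => 0
  | m + 1, t => PP' a s f f' m t * f (m + 1) (X a s (m + 1) t) +
      PP a s f m t * (f' (m + 1) (X a s (m + 1) t) * D a s (m + 1) t)

theorem PP_hasDeriv (a s : ℝ) {f f' : ℕ → ℝ → ℝ} (d : ∀ k x, HasDerivAt (f k) (f' k x) x)
    (m : ℕ) (t : ℝ) : HasDerivAt (PP a s f m) (PP' a s f f' m t) t := by
  induction m with
  | zero => exact hasDerivAt_const t (1 : ℝ)
  | succ m ih => exact ih.mul ((d (m + 1) (X a s (m + 1) t)).comp t (X_hasDeriv a s (m + 1) t))

theorem PP_cont (a s : ℝ) {f : ℕ → ℝ → ℝ} (c : ∀ k, Continuous (f k)) (m : ℕ) :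
    Continuous (PP a s f m) := by
  induction m with
  | zero => exact continuous_const
  | succ m ih => exact ih.mul ((c (m + 1)).comp (Xt_cont a s (m + 1)))

theorem PP'_cont (a s : ℝ) {f f' : ℕ → ℝ → ℝ} (c : ∀ k, Continuous (f k))
    (c' : ∀ k, Continuous (f' k)) (m : ℕ) : Continuous (PP' a s f f' m) := by
  induction m with
  | zero => exact continuous_const
  | succ m ih =>
    exact (ih.mul ((c (m + 1)).comp (Xt_cont a s (m + 1)))).add
      ((PP_cont a s c m).mul (((c' (m + 1)).comp (Xt_cont a s (m + 1))).mul (D_cont a s (m + 1))))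

theorem PP_le (a s : ℝ) {f : ℕ → ℝ → ℝ} (b : ∀ k x, |f k x| ≤ 1) (m : ℕ) (t : ℝ) :
    |PP a s f m t| ≤ 1 := by
  induction m with
  | zero => simp [PP]
  | succ m ih =>
    show |PP a s f m t * f (m + 1) (X a s (m + 1) t)| ≤ 1
    rw [abs_mul]
    exact mul_le_one₀ ih (abs_nonneg _) (b _ _)

theorem PP_period (a s : ℝ) {f : ℕ → ℝ → ℝ} (p : ∀ k, Periodic (f k) 1) (m : ℕ) (t : ℝ) :
    PP a s f m (t + 1) = PP a s f m t := by
  induction m with
  | zero => rfl
  | succ m ih =>
    show PP a s f m (t + 1) * f (m + 1) (X a s (m + 1) (t + 1)) =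
      PP a s f m t * f (m + 1) (X a s (m + 1) t)
    rw [ih, X_period]
    have := (p (m + 1)).nat_mul (m + 1) (X a s (m + 1) t)
    rw [mul_one] at this
    rw [this]

theorem PP'_le (a s : ℝ) {f f' : ℕ → ℝ → ℝ} (b : ∀ k x, |f k x| ≤ 1) {v : ℝ}
    (hv : ∀ k x, |f' k x| ≤ v) (m : ℕ) (t : ℝ) : |PP' a s f f' m t| ≤ v * SD a s m t := by
  induction m with
  | zero => simp [PP', SD]
  | succ m ih =>
    show |PP' a s f f' m t * f (m + 1) (X a s (m + 1) t) +
      PP a s f m t * (f' (m + 1) (X a s (m + 1) t) * D a s (m + 1) t)| ≤ _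
    have e : SD a s (m + 1) t = SD a s m t + |D a s (m + 1) t| := by
      unfold SD
      rw [Finset.sum_range_succ]
    have hv0 : 0 ≤ v := (abs_nonneg _).trans (hv 0 0)
    rw [e, mul_add]
    refine (abs_add_le _ _).trans (add_le_add ?_ ?_)
    · rw [abs_mul]
      calc |PP' a s f f' m t| * |f (m + 1) (X a s (m + 1) t)| ≤ |PP' a s f f' m t| * 1 :=
            mul_le_mul_of_nonneg_left (b _ _) (abs_nonneg _)
        _ ≤ _ := by rw [mul_one]; exact ih
    · rw [abs_mul, abs_mul]
      calc |PP a s f m t| * (|f' (m + 1) (X a s (m + 1) t)| * |D a s (m + 1) t|) ≤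
            1 * (v * |D a s (m + 1) t|) := by
            apply mul_le_mul (PP_le a s b m t) _ (by positivity) zero_le_one
            exact mul_le_mul_of_nonneg_right (hv _ _) (abs_nonneg _)
        _ = _ := one_mul _

/-- one step -/
theorem step {a l : ℝ} (hl' : l0 ≤ l) (hla : l ≤ |a|) (s : ℝ) (m : ℕ) {f f' : ℕ → ℝ → ℝ}
    (d : ∀ k x, HasDerivAt (f k) (f' k x) x) (c : ∀ k, Continuous (f' k))
    (p : ∀ k, Periodic (f k) 1) (b : ∀ k x, |f k x| ≤ 1) {v : ℝ}
    (hv : ∀ k x, |f' k x| ≤ v) {g : ℝ → ℝ} (hg : Continuous g) (pg : Periodic g 1)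
    (g0 : ∫ x in (0:ℝ)..1, g x = 0) {A : ℝ} (hA : ∀ x, |g x| ≤ A) :
    |∫ t in (0:ℝ)..1, chi a l s m t * PP a s f m t * g (X a s (m + 1) t)| ≤
      A * ((l0 + 4 * v) / l) := by
  have hl : 16 ≤ l := l0_ge.trans hl'
  have hl0 : 0 < l := by linarith
  have hK := KK_one
  have hv0 : 0 ≤ v := (abs_nonneg _).trans (hv 0 0)
  have hA0 : 0 ≤ A := (abs_nonneg _).trans (hA 0)
  rcases hA0.eq_or_lt with h0 | hApos
  · have hz : ∀ x, g x = 0 := fun x => abs_nonpos_iff.1 (by rw [h0]; exact hA x)
    simp only [hz, mul_zero, intervalIntegral.integral_zero, abs_zero]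
    rw [← h0, zero_mul]
  obtain ⟨G, hG, hGp, hG1⟩ := prim (f := fun x => 2 * g x / A) (by fun_prop)
    (fun x => by show 2 * g (x + 1) / A = 2 * g x / A; rw [pg x]) (by
      rw [intervalIntegral.integral_div, intervalIntegral.integral_const_mul, g0]; simp) (by
      intro x
      rw [abs_div, abs_mul, abs_of_pos hApos, abs_of_pos (by norm_num : (0:ℝ) < 2),
        div_le_iff₀ hApos]
      have := hA x
      linarith)
  have hfc : ∀ k, Continuous (f k) := fun k =>
    continuous_iff_continuousAt.2 fun t => (d k t).continuousAt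
  have hPd := PP_hasDeriv a s d m
  have hPc := PP_cont a s hfc m
  have hP'c := PP'_cont a s hfc c m
  have hP1 := PP_le a s b m
  have hPp := PP_period a s p m
  have hP'b : ∀ t, chi a l s m t * |PP' a s f f' m t| / |D a s (m + 1) t| ≤ 4 * v / l := by
    intro t
    by_cases hg' : Good a l s m t
    · have hD0 : 0 < |D a s (m + 1) t| := abs_pos.2 (D_ne hl hg')
      have h1 := (growth hl hg' m le_rfl).1
      have h2 := SD_le hl hg'
      have h4 := chi_mem a l s m t
      have h5 := PP'_le a s b hv m t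
      rw [div_le_iff₀ hD0]
      calc chi a l s m t * |PP' a s f f' m t| ≤ 1 * (v * SD a s m t) :=
            mul_le_mul h4.2 h5 (abs_nonneg _) zero_le_one
        _ ≤ v * (2 * |D a s m t|) := by rw [one_mul]; exact mul_le_mul_of_nonneg_left h2 hv0
        _ = 2 * v / l * (l * |D a s m t|) := by field_simp
        _ ≤ 2 * v / l * (2 * |D a s (m + 1) t|) := mul_le_mul_of_nonneg_left h1 (by positivity)
        _ = _ := by ring
    · rw [(chi_bad hl0 hg').1, zero_mul, zero_div]
      positivity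
  have hVc := VV_cont a hl0 s m
  have hibp := ibp2 (a := a) (s := s) hl m hPd hP'c hPp
    (bd := fun t => 104 * KK * π ^ 2 * VV a l s m t + 4 * v / l) (by fun_prop) (fun t =>
      (W'_le2 hl m (hP1 t)).trans (add_le_add le_rfl (hP'b t))) hG (by fun_prop) (fun u n => by
      have := hGp.nat_mul n u
      rwa [mul_one] at this) hG1
  rw [one_mul, intervalIntegral.integral_add (f := fun t => 104 * KK * π ^ 2 * VV a l s m t)
    (g := fun _ => 4 * v / l) ((continuous_const.mul hVc).intervalIntegrable _ _)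
    (continuous_const.intervalIntegrable _ _),
    intervalIntegral.integral_const_mul, intervalIntegral.integral_const, sub_zero, one_smul] at hibp
  have hVV := mul_le_mul_of_nonneg_left (VV_int hl' hla s m)
    (by positivity : 0 ≤ 104 * KK * π ^ 2)
  have hAe : ∫ t in (0:ℝ)..1, chi a l s m t * PP a s f m t * (2 * g (X a s (m + 1) t) / A / 2) =
      (∫ t in (0:ℝ)..1, chi a l s m t * PP a s f m t * g (X a s (m + 1) t)) / A := by
    rw [← intervalIntegral.integral_div]
    apply intervalIntegral.integral_congr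
    intro t _
    simp only
    ring
  rw [hAe, abs_div, abs_of_pos hApos, div_le_iff₀ hApos] at hibp
  refine hibp.trans ?_
  rw [mul_comm]
  apply mul_le_mul_of_nonneg_left _ hApos.le
  unfold l0
  rw [add_div]
  have e1 : 104 * KK * π ^ 2 * (1 / l) = 104 * KK * π ^ 2 / l := by ring
  rw [e1] at hVV
  linarith

/-- the expectation with cutoffs -/
noncomputable def ZZc (a l s : ℝ) (f : ℕ → ℝ → ℝ) (m : ℕ) : ℝ :=
  ∫ t in (0:ℝ)..1, chi a l s m t * PP a s f m t

/-- the mean of the `k`-th function -/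
noncomputable def mn (f : ℕ → ℝ → ℝ) (k : ℕ) : ℝ := ∫ x in (0:ℝ)..1, f k x

theorem mn_le {f : ℕ → ℝ → ℝ} (b : ∀ k x, |f k x| ≤ 1) (k : ℕ) : |mn f k| ≤ 1 := by
  unfold mn
  have h := intervalIntegral.norm_integral_le_of_norm_le_const (a := 0) (b := 1) (C := 1)
    (f := f k) (fun x _ => b k x)
  simpa using h

theorem rec_step {a l : ℝ} (hl' : l0 ≤ l) (hla : l ≤ |a|) (s : ℝ) (m : ℕ) {f f' : ℕ → ℝ → ℝ}
    (d : ∀ k x, HasDerivAt (f k) (f' k x) x) (c : ∀ k, Continuous (f' k))
    (p : ∀ k, Periodic (f k) 1) (b : ∀ k x, |f k x| ≤ 1) {v : ℝ}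
    (hv : ∀ k x, |f' k x| ≤ v) :
    |ZZc a l s f (m + 1) - mn f (m + 1) * ZZc a l s f m| ≤
      2 * ((l0 + 4 * v) / l) + 2 * (l / |a|) ∧
    ((∀ x, f (m + 1) x = 1) →
      |ZZc a l s f (m + 1) - mn f (m + 1) * ZZc a l s f m| ≤ 2 * (l / |a|)) := by
  have hfc : ∀ k, Continuous (f k) := fun k =>
    continuous_iff_continuousAt.2 fun t => (d k t).continuousAt
  have hPc := PP_cont a s hfc m
  have hPc1 := PP_cont a s hfc (m + 1)
  have hcc := chi_cont a l s m
  have hcc1 : Continuous (chi a l s (m + 1)) := chi_cont a l s (m + 1)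
  have hXc := Xt_cont a s (m + 1)
  have hrc := rk_cont a l s (m + 1)
  have hf1 := hfc (m + 1)
  have e1 : ZZc a l s f (m + 1) - mn f (m + 1) * ZZc a l s f m =
      (∫ t in (0:ℝ)..1, chi a l s m t * PP a s f m t *
        (f (m + 1) (X a s (m + 1) t) - mn f (m + 1))) -
      ∫ t in (0:ℝ)..1, (chi a l s m t * (1 - rk a l s (m + 1) t)) * PP a s f (m + 1) t := by
    unfold ZZc
    rw [← intervalIntegral.integral_const_mul, ← intervalIntegral.integral_sub
      (Continuous.intervalIntegrable (by fun_prop) _ _)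
      (Continuous.intervalIntegrable (by fun_prop) _ _),
      ← intervalIntegral.integral_sub (Continuous.intervalIntegrable (by fun_prop) _ _)
        (Continuous.intervalIntegrable (by fun_prop) _ _)]
    apply intervalIntegral.integral_congr
    intro t _
    simp only
    have h1 : chi a l s (m + 1) t = chi a l s m t * rk a l s (m + 1) t := rfl
    have h2 : PP a s f (m + 1) t = PP a s f m t * f (m + 1) (X a s (m + 1) t) := rfl
    rw [h1, h2]
    ring
  have hsecond : |∫ t in (0:ℝ)..1, (chi a l s m t * (1 - rk a l s (m + 1) t)) *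
      PP a s f (m + 1) t| ≤ 2 * (l / |a|) := by
    refine le_trans ?_ (loss hl' hla s m)
    have h3 := intervalIntegral.norm_integral_le_abs_of_norm_le (a := 0) (b := 1) (μ := volume)
      (f := fun t => (chi a l s m t * (1 - rk a l s (m + 1) t)) * PP a s f (m + 1) t)
      (g := fun t => chi a l s m t * (1 - rk a l s (m + 1) t))
      (Filter.Eventually.of_forall fun t => by
        have hr0 : 0 ≤ 1 - rk a l s (m + 1) t := sub_nonneg.2 (rho_le_one _)
        have hc0 : 0 ≤ chi a l s m t * (1 - rk a l s (m + 1) t) :=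
          mul_nonneg (chi_mem a l s m t).1 hr0
        rw [norm_mul, norm_eq_abs, norm_eq_abs, abs_of_nonneg hc0]
        exact mul_le_of_le_one_right hc0 (PP_le a s b (m + 1) t))
      (Continuous.intervalIntegrable (by fun_prop) _ _)
    refine h3.trans (le_of_eq (abs_of_nonneg ?_))
    exact intervalIntegral.integral_nonneg zero_le_one fun t _ =>
      mul_nonneg (chi_mem a l s m t).1 (sub_nonneg.2 (rho_le_one _))
  have hm1 := mn_le b (m + 1)
  rw [e1]
  constructor
  · refine (abs_sub _ _).trans (add_le_add ?_ hsecond)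
    refine step hl' hla s m d c p b hv (g := fun x => f (m + 1) x - mn f (m + 1))
      (hf1.sub continuous_const) (fun x => by
        show f (m + 1) (x + 1) - _ = f (m + 1) x - _
        rw [p (m + 1) x]) ?_ (fun x => ?_)
    · rw [intervalIntegral.integral_sub (hf1.intervalIntegrable _ _)
        intervalIntegrable_const, intervalIntegral.integral_const]
      simp [mn]
    · refine (abs_sub _ _).trans ?_
      have := b (m + 1) x
      linarith
  · intro h1
    have h2 : mn f (m + 1) = 1 := by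
      unfold mn
      simp [h1]
    have h3 : (∫ t in (0:ℝ)..1, chi a l s m t * PP a s f m t *
        (f (m + 1) (X a s (m + 1) t) - mn f (m + 1))) = 0 := by
      rw [h2]
      simp [h1]
    rw [h3, zero_sub, abs_neg]
    exact hsecond

/-- the number of the times `1, ..., n` in `J` -/
def cn (J : Finset ℕ) (n : ℕ) : ℕ := ((Finset.range n).filter (fun k => k + 1 ∈ J)).card

theorem cn_le (J : Finset ℕ) (n : ℕ) : cn J n ≤ J.card := by
  unfold cn
  refine Finset.card_le_card_of_injOn (fun k => k + 1) ?_ ?_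
  · intro k hk
    exact (Finset.mem_filter.1 hk).2
  · intro k _ k' _ h
    simpa using h

theorem cn_succ (J : Finset ℕ) (n : ℕ) : cn J (n + 1) = cn J n + if n + 1 ∈ J then 1 else 0 := by
  unfold cn
  rw [Finset.range_add_one, Finset.filter_insert]
  split_ifs with h
  · rw [Finset.card_insert_of_notMem]
    simp
  · rfl

theorem ZZ_prod {a l : ℝ} (hl' : l0 ≤ l) (hla : l ≤ |a|) (s : ℝ) {f f' : ℕ → ℝ → ℝ}
    (d : ∀ k x, HasDerivAt (f k) (f' k x) x) (c : ∀ k, Continuous (f' k))
    (p : ∀ k, Periodic (f k) 1) (b : ∀ k x, |f k x| ≤ 1) {v : ℝ}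
    (hv : ∀ k x, |f' k x| ≤ v) (J : Finset ℕ) (hJ : ∀ k, k ∉ J → ∀ x, f k x = 1) (n : ℕ) :
    |ZZc a l s f n - ∏ k ∈ Finset.range n, mn f (k + 1)| ≤
      (cn J n : ℝ) * (2 * ((l0 + 4 * v) / l)) + n * (2 * (l / |a|)) := by
  have hl : 16 ≤ l := l0_ge.trans hl'
  have hl0 : 0 < l := by linarith
  have ha : 0 < |a| := by linarith
  induction n with
  | zero =>
    have : ZZc a l s f 0 = 1 := by
      unfold ZZc
      simp [chi, PP]
    rw [this]
    simp [cn]
  | succ n ih =>
    obtain ⟨h1, h1'⟩ := rec_step hl' hla s n d c p b hv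
    have e1 : ZZc a l s f (n + 1) - ∏ k ∈ Finset.range (n + 1), mn f (k + 1) =
        (ZZc a l s f (n + 1) - mn f (n + 1) * ZZc a l s f n) +
          mn f (n + 1) * (ZZc a l s f n - ∏ k ∈ Finset.range n, mn f (k + 1)) := by
      rw [Finset.prod_range_succ]
      ring
    rw [e1]
    refine (abs_add_le _ _).trans ?_
    rw [abs_mul]
    have h2 : |mn f (n + 1)| * |ZZc a l s f n - ∏ k ∈ Finset.range n, mn f (k + 1)| ≤
        1 * |ZZc a l s f n - ∏ k ∈ Finset.range n, mn f (k + 1)| :=
      mul_le_mul_of_nonneg_right (mn_le b _) (abs_nonneg _)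
    rw [cn_succ]
    split_ifs with hn
    · push_cast
      linarith
    · have h3 := h1' (hJ _ hn)
      push_cast
      linarith

/-- **the joint law of the positions**, on every horizontal line -/
theorem law {a l : ℝ} (hl' : l0 ≤ l) (hla : l ≤ |a|) (s : ℝ) {f f' : ℕ → ℝ → ℝ}
    (d : ∀ k x, HasDerivAt (f k) (f' k x) x) (c : ∀ k, Continuous (f' k))
    (p : ∀ k, Periodic (f k) 1) (b : ∀ k x, |f k x| ≤ 1) {v : ℝ}
    (hv : ∀ k x, |f' k x| ≤ v) (J : Finset ℕ) (hJ : ∀ k, k ∉ J → ∀ x, f k x = 1) (n : ℕ) :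
    |(∫ t in (0:ℝ)..1, PP a s f n t) - ∏ k ∈ Finset.range n, mn f (k + 1)| ≤
      (J.card : ℝ) * (2 * ((l0 + 4 * v) / l)) + n * (4 * (l / |a|)) := by
  have hl : 16 ≤ l := l0_ge.trans hl'
  have hl0 : 0 < l := by linarith
  have hfc : ∀ k, Continuous (f k) := fun k =>
    continuous_iff_continuousAt.2 fun t => (d k t).continuousAt
  have hPc := PP_cont a s hfc n
  have hcc := chi_cont a l s n
  have h1 := ZZ_prod hl' hla s d c p b hv J hJ n
  have e1 : (∫ t in (0:ℝ)..1, PP a s f n t) - ∏ k ∈ Finset.range n, mn f (k + 1) =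
      (∫ t in (0:ℝ)..1, (1 - chi a l s n t) * PP a s f n t) +
      (ZZc a l s f n - ∏ k ∈ Finset.range n, mn f (k + 1)) := by
    unfold ZZc
    rw [← add_sub_assoc, ← intervalIntegral.integral_add
      (Continuous.intervalIntegrable (by fun_prop) _ _)
      (Continuous.intervalIntegrable (by fun_prop) _ _)]
    congr 1
    apply intervalIntegral.integral_congr
    intro t _
    simp only
    ring
  rw [e1]
  refine (abs_add_le _ _).trans ?_
  have h3 := intervalIntegral.norm_integral_le_abs_of_norm_le (a := 0) (b := 1) (μ := volume)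
    (f := fun t => (1 - chi a l s n t) * PP a s f n t)
    (g := fun t => 1 - chi a l s n t)
    (Filter.Eventually.of_forall fun t => by
      have hc0 : 0 ≤ 1 - chi a l s n t := sub_nonneg.2 (chi_mem a l s n t).2
      rw [norm_mul, norm_eq_abs, norm_eq_abs, abs_of_nonneg hc0]
      exact mul_le_of_le_one_right hc0 (PP_le a s b n t))
    (Continuous.intervalIntegrable (by fun_prop) _ _)
  rw [abs_of_nonneg (intervalIntegral.integral_nonneg zero_le_one fun t _ =>
    sub_nonneg.2 (chi_mem a l s n t).2), norm_eq_abs] at h3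
  have h4 := chi_loss hl' hla s n
  have hv0 : 0 ≤ v := (abs_nonneg _).trans (hv 0 0)
  have h5 : (cn J n : ℝ) * (2 * ((l0 + 4 * v) / l)) ≤ (J.card : ℝ) * (2 * ((l0 + 4 * v) / l)) := by
    have : (cn J n : ℝ) ≤ J.card := by exact_mod_cast cn_le J n
    have h0 := l0_ge
    exact mul_le_mul_of_nonneg_right this (by positivity)
  have e2 : (n : ℝ) * (4 * (l / |a|)) = n * (2 * (l / |a|)) + n * (2 * (l / |a|)) := by ring
  rw [e2]
  linarith

end Pool.Agent.X100.SM
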