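import Pool.Agent.X100.SM.A

set_option autoImplicit false

/-!
# The joint law of the positions at given times
-/

namespace Pool.Agent.X100.SM

open Real MeasureTheory Function Pool.Agent.TH705.SM

theorem PP_eq (a s : ℝ) (f : ℕ → ℝ → ℝ) (m : ℕ) (t : ℝ) :
    PP a s f m t = ∏ k ∈ Finset.range m, f (k + 1) (X a s (k + 1) t) := by
  induction m with
  | zero => rfl
  | succ m ih =>
    rw [Finset.prod_range_succ, ← ih]
    rfl

/-- choice of the cutoff -/
theorem opt {a v M R : ℝ} {r n : ℕ} (ha : 1 ≤ |a|) (hv : 0 ≤ v) (hr : 1 ≤ r) (hn : 1 ≤ n)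
    (hM : M ≤ 2)
    (hR : R = √((r : ℝ) * n * (1 + v) / |a|))
    (h : ∀ l : ℝ, l0 ≤ l → l ≤ |a| →
      M ≤ (r : ℝ) * (2 * ((l0 + 4 * v) / l)) + n * (4 * (l / |a|))) :
    M ≤ (2 * l0 + 4) * R := by
  have h0 := l0_ge
  have hr' : (1 : ℝ) ≤ r := by exact_mod_cast hr
  have hn' : (1 : ℝ) ≤ n := by exact_mod_cast hn
  have ha0 : 0 < |a| := by linarith
  have hpos : 0 < (r : ℝ) * n * (1 + v) / |a| := by positivity
  have hR0 : 0 < R := by rw [hR]; exact Real.sqrt_pos.2 hpos
  have hR2 : R ^ 2 = (r : ℝ) * n * (1 + v) / |a| := by rw [hR]; exact Real.sq_sqrt hpos.le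
  have hR3 : R ^ 2 * |a| = (r : ℝ) * n * (1 + v) := by rw [hR2]; field_simp
  rcases le_or_gt (1 / l0) R with h1 | h1
  · have h2 : 1 ≤ l0 * R := by
      rw [div_le_iff₀ (by linarith)] at h1
      linarith
    nlinarith
  · have h1' : R * l0 < 1 := by
      rwa [lt_div_iff₀ (by linarith)] at h1
    set l : ℝ := (r : ℝ) * (1 + v) / R with hl
    have hrv : 1 ≤ (r : ℝ) * (1 + v) := by nlinarith
    have hl1 : l0 ≤ l := by
      rw [hl, le_div_iff₀ hR0]
      nlinarith
    have hR1 : R ≤ 1 := by nlinarith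
    have hl2 : l ≤ |a| := by
      rw [hl, div_le_iff₀ hR0]
      have h3 : R ^ 2 * |a| ≤ R * |a| := by
        apply mul_le_mul_of_nonneg_right _ ha0.le
        nlinarith
      have h4 : (r : ℝ) * (1 + v) ≤ (r : ℝ) * n * (1 + v) := by
        have : (r : ℝ) * (1 + v) * 1 ≤ (r : ℝ) * (1 + v) * n := by
          apply mul_le_mul_of_nonneg_left hn' (by positivity)
        linarith
      linarith
    have h5 := h l hl1 hl2
    have hlp : 0 < l := by linarith
    have h6 : (r : ℝ) * (2 * ((l0 + 4 * v) / l)) ≤ 2 * l0 * R := by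
      have e : (r : ℝ) * (2 * ((l0 + 4 * v) / l)) = 2 * ((l0 + 4 * v) / (1 + v)) * R := by
        rw [hl]
        field_simp
      rw [e]
      have h7 : (l0 + 4 * v) / (1 + v) ≤ l0 := by
        rw [div_le_iff₀ (by linarith)]
        nlinarith
      have := mul_le_mul_of_nonneg_right h7 hR0.le
      linarith
    have h7 : (n : ℝ) * (4 * (l / |a|)) = 4 * R := by
      have e : |a| = (r : ℝ) * n * (1 + v) / R ^ 2 := by
        rw [← hR3]
        field_simp
      rw [e, hl]
      field_simp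
    linarith

/-- families indexed by a finite type, at different positive times -/
theorem law_fam {κ : Type} [Fintype κ] [Nonempty κ] (e : κ → ℕ) (he : Injective e) {N : ℕ}
    (hN : ∀ k, e k < N) {f f' : κ → ℝ → ℝ}
    (d : ∀ k x, HasDerivAt (f k) (f' k x) x) (c : ∀ k, Continuous (f' k))
    (p : ∀ k, Periodic (f k) 1) (b : ∀ k x, |f k x| ≤ 1) {v : ℝ}
    (hv : ∀ k x, |f' k x| ≤ v) {a : ℝ} (ha : 1 ≤ |a|) (s : ℝ) :
    |(∫ t in (0:ℝ)..1, ∏ k, f k (X a s (e k + 1) t)) - ∏ k, ∫ x in (0:ℝ)..1, f k x| ≤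
      (2 * l0 + 4) * √((Fintype.card κ : ℝ) * N * (1 + v) / |a|) := by
  classical
  have hv0 : 0 ≤ v := (abs_nonneg _).trans (hv (Classical.arbitrary κ) 0)
  have hN1 : 1 ≤ N := by
    have := hN (Classical.arbitrary κ)
    omega
  have he' : Injective (fun k => e k + 1) := fun x y h => he (by simpa using h)
  obtain ⟨F, hF⟩ : ∃ F : ℕ → ℝ → ℝ, F = Function.extend (fun k => e k + 1) f (fun _ _ => 1) :=
    ⟨_, rfl⟩
  obtain ⟨F', hF'⟩ : ∃ F' : ℕ → ℝ → ℝ, F' = Function.extend (fun k => e k + 1) f' (fun _ _ => 0) :=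
    ⟨_, rfl⟩
  have F1 : ∀ k, F (e k + 1) = f k := fun k => by rw [hF]; exact he'.extend_apply f _ k
  have F1' : ∀ k, F' (e k + 1) = f' k := fun k => by rw [hF']; exact he'.extend_apply f' _ k
  have F2 : ∀ m, (¬ ∃ k, e k + 1 = m) → F m = fun _ => 1 := fun m hm => by
    rw [hF]; exact Function.extend_apply' _ _ _ hm
  have F2' : ∀ m, (¬ ∃ k, e k + 1 = m) → F' m = fun _ => 0 := fun m hm => by
    rw [hF']; exact Function.extend_apply' _ _ _ hm
  have cases : ∀ m, (∃ k, F m = f k ∧ F' m = f' k) ∨ (F m = (fun _ => 1) ∧ F' m = fun _ => 0) := by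
    intro m
    by_cases hm : ∃ k, e k + 1 = m
    · obtain ⟨k, rfl⟩ := hm
      exact Or.inl ⟨k, F1 k, F1' k⟩
    · exact Or.inr ⟨F2 m hm, F2' m hm⟩
  have dF : ∀ k x, HasDerivAt (F k) (F' k x) x := by
    intro m x
    rcases cases m with ⟨k, h1, h2⟩ | ⟨h1, h2⟩
    · rw [h1, h2]; exact d k x
    · rw [h1, h2]; exact hasDerivAt_const x 1
  have cF : ∀ k, Continuous (F' k) := by
    intro m
    rcases cases m with ⟨k, h1, h2⟩ | ⟨h1, h2⟩
    · rw [h2]; exact c k
    · rw [h2]; exact continuous_const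
  have pF : ∀ k, Periodic (F k) 1 := by
    intro m
    rcases cases m with ⟨k, h1, h2⟩ | ⟨h1, h2⟩
    · rw [h1]; exact p k
    · rw [h1]; exact fun _ => rfl
  have bF : ∀ k x, |F k x| ≤ 1 := by
    intro m x
    rcases cases m with ⟨k, h1, h2⟩ | ⟨h1, h2⟩
    · rw [h1]; exact b k x
    · rw [h1]; simp
  have vF : ∀ k x, |F' k x| ≤ v := by
    intro m x
    rcases cases m with ⟨k, h1, h2⟩ | ⟨h1, h2⟩
    · rw [h2]; exact hv k x
    · rw [h2]; simpa using hv0
  set J : Finset ℕ := Finset.univ.image (fun k => e k + 1) with hJ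
  have hJc : J.card = Fintype.card κ := by
    rw [hJ, Finset.card_image_of_injective _ he', Finset.card_univ]
  have hJ1 : ∀ k, k ∉ J → ∀ x, F k x = 1 := by
    intro m hm x
    rw [F2 m]
    rintro ⟨k, hk⟩
    exact hm (Finset.mem_image.2 ⟨k, Finset.mem_univ k, hk⟩)
  have key : ∀ (G : ℕ → ℝ), (∀ m, m ∉ J → G m = 1) →
      ∏ k ∈ Finset.range N, G (k + 1) = ∏ k, G (e k + 1) := by
    intro G hG
    have h1 : ∏ k ∈ Finset.range N, G (k + 1) = ∏ k ∈ Finset.univ.image e, G (k + 1) := by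
      symm
      apply Finset.prod_subset
      · intro m hm
        obtain ⟨k, _, rfl⟩ := Finset.mem_image.1 hm
        exact Finset.mem_range.2 (hN k)
      · intro m _ hm
        apply hG
        intro hmJ
        obtain ⟨k, _, hk⟩ := Finset.mem_image.1 hmJ
        apply hm
        have : e k = m := by simpa using hk
        exact Finset.mem_image.2 ⟨k, Finset.mem_univ k, this⟩
    rw [h1, Finset.prod_image (fun x _ y _ h => he h)]
  have e1 : ∀ t, PP a s F N t = ∏ k, f k (X a s (e k + 1) t) := by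
    intro t
    rw [PP_eq, key (fun m => F m (X a s m t)) (fun m hm => hJ1 m hm _)]
    apply Finset.prod_congr rfl
    intro k _
    rw [F1]
  have e2 : ∏ k ∈ Finset.range N, mn F (k + 1) = ∏ k, ∫ x in (0:ℝ)..1, f k x := by
    rw [key (fun m => mn F m) (fun m hm => by
      unfold mn
      simp [hJ1 m hm])]
    apply Finset.prod_congr rfl
    intro k _
    unfold mn
    rw [F1]
  have hmain : ∀ l : ℝ, l0 ≤ l → l ≤ |a| →
      |(∫ t in (0:ℝ)..1, ∏ k, f k (X a s (e k + 1) t)) - ∏ k, ∫ x in (0:ℝ)..1, f k x| ≤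
      (Fintype.card κ : ℝ) * (2 * ((l0 + 4 * v) / l)) + N * (4 * (l / |a|)) := by
    intro l hl1 hl2
    have h := law hl1 hl2 s dF cF pF bF vF J hJ1 N
    rw [e2, hJc] at h
    simp_rw [e1] at h
    exact h
  refine opt ha hv0 Fintype.card_pos hN1 ?_ rfl hmain
  have q1 : |∫ t in (0:ℝ)..1, ∏ k, f k (X a s (e k + 1) t)| ≤ 1 := by
    have h := intervalIntegral.norm_integral_le_of_norm_le_const (a := 0) (b := 1) (C := 1)
      (f := fun t => ∏ k, f k (X a s (e k + 1) t)) (fun x _ => by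
        rw [norm_eq_abs, Finset.abs_prod]
        exact Finset.prod_le_one (fun _ _ => abs_nonneg _) (fun k _ => b k _))
    simpa using h
  have q2 : |∏ k, ∫ x in (0:ℝ)..1, f k x| ≤ 1 := by
    rw [Finset.abs_prod]
    refine Finset.prod_le_one (fun _ _ => abs_nonneg _) (fun k _ => ?_)
    have h := intervalIntegral.norm_integral_le_of_norm_le_const (a := 0) (b := 1) (C := 1)
      (f := f k) (fun x _ => b k x)
    simpa using h
  have := abs_sub (∫ t in (0:ℝ)..1, ∏ k, f k (X a s (e k + 1) t)) (∏ k, ∫ x in (0:ℝ)..1, f k x)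
  linarith

end Pool.Agent.X100.SM
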