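import Pool.Agent.X100.SM.B

set_option autoImplicit false

/-!
# Mixing of all orders: product observables on the torus
-/

namespace Pool.Agent.X100.SM

open Real MeasureTheory Function Filter Topology Pool.Agent.TH705.SM

/-- functions of class `C¹` with period one, bounded by one -/
structure Sm (g : ℝ → ℝ) : Prop where
  diff : ContDiff ℝ 1 g
  per : Periodic g 1
  bd : ∀ x, |g x| ≤ 1

theorem Sm.hd {g : ℝ → ℝ} (h : Sm g) (x : ℝ) : HasDerivAt g (deriv g x) x :=
  (h.diff.differentiable one_ne_zero x).hasDerivAt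

theorem Sm.cd {g : ℝ → ℝ} (h : Sm g) : Continuous (deriv g) := h.diff.continuous_deriv le_rfl

theorem Sm.dper {g : ℝ → ℝ} (h : Sm g) : Periodic (deriv g) 1 := by
  intro x
  have h1 : HasDerivAt (fun y => g (y + 1)) (deriv g (x + 1)) x := (h.hd (x + 1)).comp_add_const x 1
  have h2 : (fun y => g (y + 1)) = g := funext h.per
  rw [h2] at h1
  exact h1.unique (h.hd x)

theorem Sm.bdd {g : ℝ → ℝ} (h : Sm g) : ∃ v, ∀ x, |deriv g x| ≤ v := by
  obtain ⟨v, hv⟩ := (isCompact_Icc (a := (0 : ℝ)) (b := 1)).exists_bound_of_continuousOn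
    h.cd.continuousOn
  refine ⟨v, fun x => ?_⟩
  obtain ⟨y, hy, hy2⟩ := h.dper.exists_mem_Ico₀ one_pos x
  rw [hy2]
  exact hv y ⟨hy.1, hy.2.le⟩

/-- the shift of the times -/
def sh : Bool → ℕ := fun b => if b then 1 else 0

theorem inj_of_gap {κ : Type} (τ : κ → ℕ) (h : ∀ i k, i ≠ k → τ i + 2 ≤ τ k ∨ τ k + 2 ≤ τ i) :
    Injective (fun q : κ × Bool => τ q.1 + sh q.2) := by
  rintro ⟨i, b⟩ ⟨k, c⟩ hq
  simp only at hq
  have hb : sh b ≤ 1 := by cases b <;> simp [sh]
  have hc : sh c ≤ 1 := by cases c <;> simp [sh]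
  by_cases hik : i = k
  · subst hik
    have : sh b = sh c := by omega
    cases b <;> cases c <;> simp_all [sh]
  · rcases h i k hik with h1 | h1 <;> omega

/-- **rate of multiple mixing** for product observables -/
theorem torus_rate {κ : Type} [Fintype κ] [Nonempty κ] (τ : κ → ℕ)
    (hτ : ∀ i k, i ≠ k → τ i + 2 ≤ τ k ∨ τ k + 2 ≤ τ i) {N : ℕ} (hN : ∀ k, τ k ≤ N)
    {g h : κ → ℝ → ℝ} (hg : ∀ k, Sm (g k)) (hh : ∀ k, Sm (h k)) {v : ℝ}
    (vg : ∀ k x, |deriv (g k) x| ≤ v) (vh : ∀ k x, |deriv (h k) x| ≤ v)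
    {F : κ → T2 → ℝ} (hF : ∀ (k : κ) (x y : ℝ),
      F k ((x : UnitAddCircle), (y : UnitAddCircle)) = g k x * h k y)
    (hFc : ∀ k, Continuous (F k)) {a : ℝ} (ha : 1 ≤ |a|) :
    |(∫ p : T2, ∏ k, F k ((S a)^[τ k] p)) - ∏ k, ∫ p, F k p| ≤
      (2 * l0 + 4) * √((Fintype.card (κ × Bool) : ℝ) * (N + 2 : ℕ) * (1 + v) / |a|) := by
  have hS := S_cont a
  -- shift
  set G : T2 → ℝ := fun p => ∏ k, F k ((S a)^[τ k] p) with hG
  have hGc : Continuous G := continuous_finsetProd _ fun k _ => (hFc k).comp (hS.iterate _)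
  have e1 : ∫ p : T2, G p = ∫ p : T2, G (S a p) := by
    have h2 : ∫ q, G q ∂(Measure.map (S a) volume) = ∫ p : T2, G (S a p) :=
      integral_map (S_mp a).measurable.aemeasurable hGc.aestronglyMeasurable
    rw [(S_mp a).map_eq] at h2
    exact h2
  have hGSc : Continuous (fun p => G (S a p)) := hGc.comp hS
  rw [e1, int_T2 _ (integrable_cont hGSc)]
  -- the functions
  set f : κ × Bool → ℝ → ℝ := fun q => if q.2 then g q.1 else h q.1 with hf
  have fSm : ∀ q, Sm (f q) := by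
    rintro ⟨k, b⟩
    cases b
    · exact hh k
    · exact hg k
  have fv : ∀ q x, |deriv (f q) x| ≤ v := by
    rintro ⟨k, b⟩ x
    cases b
    · exact vh k x
    · exact vg k x
  have eG : ∀ s t : ℝ, G (S a ((t : UnitAddCircle), (s : UnitAddCircle))) =
      ∏ q : κ × Bool, f q (X a s (τ q.1 + sh q.2 + 1) t) := by
    intro s t
    rw [hG]
    simp only
    rw [Fintype.prod_prod_type]
    apply Finset.prod_congr rfl
    intro k _
    rw [← iterate_succ_apply, iter_coe, hF]
    rw [Fintype.prod_bool]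
    simp [hf, sh]
  have eP : ∏ k, ∫ p, F k p = ∏ q : κ × Bool, ∫ x in (0:ℝ)..1, f q x := by
    rw [Fintype.prod_prod_type]
    apply Finset.prod_congr rfl
    intro k _
    rw [int_T2 _ (integrable_cont (hFc k)), Fintype.prod_bool]
    simp only [hF]
    simp only [hf, if_true, Bool.false_eq_true, if_false]
    have : ∀ s : ℝ, ∫ t in (0:ℝ)..1, g k t * h k s = (∫ t in (0:ℝ)..1, g k t) * h k s :=
      fun s => intervalIntegral.integral_mul_const _ _
    simp_rw [this]
    rw [intervalIntegral.integral_const_mul]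
  set cc : ℝ := ∏ q : κ × Bool, ∫ x in (0:ℝ)..1, f q x with hcc
  set er : ℝ := (2 * l0 + 4) * √((Fintype.card (κ × Bool) : ℝ) * (N + 2 : ℕ) * (1 + v) / |a|) with her
  rw [eP]
  have hlaw : ∀ s : ℝ, |(∫ t in (0:ℝ)..1, G (S a ((t : UnitAddCircle), (s : UnitAddCircle)))) - cc| ≤
      er := by
    intro s
    have h1 := law_fam (κ := κ × Bool) (fun q => τ q.1 + sh q.2) (inj_of_gap τ hτ) (N := N + 2)
      (fun q => by
        have := hN q.1
        have hb : sh q.2 ≤ 1 := by cases q.2 <;> simp [sh]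
        show τ q.1 + sh q.2 < N + 2
        omega) (f := f) (f' := fun q => deriv (f q)) (fun q x => (fSm q).hd x) (fun q => (fSm q).cd)
      (fun q => (fSm q).per) (fun q => (fSm q).bd) fv ha s
    simp_rw [eG]
    exact h1
  have hcI : Continuous (fun s : ℝ => ∫ t in (0:ℝ)..1,
      G (S a ((t : UnitAddCircle), (s : UnitAddCircle)))) := by
    have hm := AddCircle.continuous_mk' (1 : ℝ)
    have hcont : Continuous (uncurry fun (s t : ℝ) =>
        G (S a ((t : UnitAddCircle), (s : UnitAddCircle)))) :=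
      hGSc.comp ((hm.comp continuous_snd).prodMk (hm.comp continuous_fst))
    exact intervalIntegral.continuous_parametric_intervalIntegral_of_continuous'
      (f := fun (s t : ℝ) => G (S a ((t : UnitAddCircle), (s : UnitAddCircle)))) hcont 0 1
  have e2 : (∫ s in (0:ℝ)..1, ∫ t in (0:ℝ)..1, G (S a ((t : UnitAddCircle), (s : UnitAddCircle)))) -
      cc = ∫ s in (0:ℝ)..1, ((∫ t in (0:ℝ)..1,
        G (S a ((t : UnitAddCircle), (s : UnitAddCircle)))) - cc) := by
    rw [intervalIntegral.integral_sub (hcI.intervalIntegrable _ _) intervalIntegrable_const,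
      intervalIntegral.integral_const]
    simp
  rw [e2]
  have h3 := intervalIntegral.norm_integral_le_of_norm_le_const (a := 0) (b := 1) (C := er)
    (f := fun s => (∫ t in (0:ℝ)..1, G (S a ((t : UnitAddCircle), (s : UnitAddCircle)))) - cc)
    (fun s _ => hlaw s)
  simpa using h3

/-- products of two functions of one variable, as continuous functions on the torus -/
def SS : Set C(T2, ℝ) := {F | ∃ g h : ℝ → ℝ, Sm g ∧ Sm h ∧
  ∀ x y : ℝ, F ((x : UnitAddCircle), (y : UnitAddCircle)) = g x * h y}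

theorem Sm_one : Sm (fun _ => 1) := ⟨contDiff_const, fun _ => rfl, fun _ => by simp⟩

theorem Sm_mul {g h : ℝ → ℝ} (hg : Sm g) (hh : Sm h) : Sm (fun x => g x * h x) := by
  refine ⟨hg.diff.mul hh.diff, fun x => ?_, fun x => ?_⟩
  · show g (x + 1) * h (x + 1) = g x * h x
    rw [hg.per, hh.per]
  · rw [abs_mul]
    exact mul_le_one₀ (hg.bd _) (abs_nonneg _) (hh.bd _)

theorem SS_one : (1 : C(T2, ℝ)) ∈ SS := ⟨_, _, Sm_one, Sm_one, fun _ _ => by simp⟩

theorem SS_mul {f g : C(T2, ℝ)} (hf : f ∈ SS) (hg : g ∈ SS) : f * g ∈ SS := by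
  obtain ⟨u, v, hu, hv, h1⟩ := hf
  obtain ⟨u', v', hu', hv', h1'⟩ := hg
  refine ⟨_, _, Sm_mul hu hu', Sm_mul hv hv', fun x y => ?_⟩
  show f _ * g _ = _
  rw [h1, h1']
  ring

theorem Sm_cos : Sm (fun y : ℝ => cos (2 * π * y)) := by
  refine ⟨by fun_prop, fun y => ?_, fun x => abs_cos_le_one _⟩
  show cos (2 * π * (y + 1)) = cos (2 * π * y)
  rw [mul_add, mul_one, cos_add_two_pi]

theorem Sm_sin : Sm (fun y : ℝ => sin (2 * π * y)) := by
  refine ⟨by fun_prop, fun y => ?_, fun x => abs_sin_le_one _⟩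
  show sin (2 * π * (y + 1)) = sin (2 * π * y)
  rw [mul_add, mul_one, sin_add_two_pi]

/-- the embedding of the circle -/
noncomputable def cs (x : UnitAddCircle) : ℂ := (AddCircle.toCircle x : ℂ)

theorem cs_cont : Continuous cs := by
  unfold cs
  exact continuous_induced_dom.comp AddCircle.continuous_toCircle

theorem cs_inj : Injective cs := by
  intro x y h
  exact AddCircle.injective_toCircle one_ne_zero (Subtype.ext h)

theorem cs_coe (y : ℝ) : cs (y : UnitAddCircle) = Complex.exp (2 * π * y * Complex.I) := by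
  unfold cs
  rw [AddCircle.toCircle_apply_mk]
  simp [Circle.coe_exp]

theorem cs_re (y : ℝ) : (cs (y : UnitAddCircle)).re = cos (2 * π * y) := by
  rw [cs_coe, show (2 * (π : ℂ) * y * Complex.I) = ((2 * π * y : ℝ) : ℂ) * Complex.I by push_cast; ring,
    Complex.exp_ofReal_mul_I_re]

theorem cs_im (y : ℝ) : (cs (y : UnitAddCircle)).im = sin (2 * π * y) := by
  rw [cs_coe, show (2 * (π : ℂ) * y * Complex.I) = ((2 * π * y : ℝ) : ℂ) * Complex.I by push_cast; ring,
    Complex.exp_ofReal_mul_I_im]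

theorem SS_first {k : UnitAddCircle → ℝ} {H : ℝ → ℝ} (hk : Continuous k)
    (hkH : ∀ y : ℝ, k (y : UnitAddCircle) = H y) (h : Sm H) :
    (⟨fun p => k p.1, hk.comp continuous_fst⟩ : C(T2, ℝ)) ∈ SS :=
  ⟨H, _, h, Sm_one, fun x y => by simp [hkH]⟩

theorem SS_second {k : UnitAddCircle → ℝ} {H : ℝ → ℝ} (hk : Continuous k)
    (hkH : ∀ y : ℝ, k (y : UnitAddCircle) = H y) (h : Sm H) :
    (⟨fun p => k p.2, hk.comp continuous_snd⟩ : C(T2, ℝ)) ∈ SS :=
  ⟨_, H, Sm_one, h, fun x y => by simp [hkH]⟩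

theorem sep : (Algebra.adjoin ℝ SS : Subalgebra ℝ C(T2, ℝ)).SeparatesPoints := by
  intro p q hpq
  have hsub : ∀ f ∈ SS, f p ≠ f q → ∃ f ∈ (fun f : C(T2, ℝ) => (f : T2 → ℝ)) ''
      ((Algebra.adjoin ℝ SS : Subalgebra ℝ C(T2, ℝ)) : Set C(T2, ℝ)), f p ≠ f q := by
    intro f hf h
    exact ⟨f, ⟨f, Algebra.subset_adjoin hf, rfl⟩, h⟩
  have cre : Continuous (fun y => (cs y).re) := Complex.continuous_re.comp cs_cont
  have cim : Continuous (fun y => (cs y).im) := Complex.continuous_im.comp cs_cont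
  by_cases h1 : p.1 = q.1
  · have h2 : p.2 ≠ q.2 := fun h => hpq (Prod.ext h1 h)
    have h3 : cs p.2 ≠ cs q.2 := fun h => h2 (cs_inj h)
    by_cases hre : (cs p.2).re = (cs q.2).re
    · have him : (cs p.2).im ≠ (cs q.2).im := fun h => h3 (Complex.ext hre h)
      exact hsub _ (SS_second cim cs_im Sm_sin) him
    · exact hsub _ (SS_second cre cs_re Sm_cos) hre
  · have h3 : cs p.1 ≠ cs q.1 := fun h => h1 (cs_inj h)
    by_cases hre : (cs p.1).re = (cs q.1).re
    · have him : (cs p.1).im ≠ (cs q.1).im := fun h => h3 (Complex.ext hre h)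
      exact hsub _ (SS_first cim cs_im Sm_sin) him
    · exact hsub _ (SS_first cre cs_re Sm_cos) hre

theorem dense_C : (Algebra.adjoin ℝ SS : Subalgebra ℝ C(T2, ℝ)).topologicalClosure = ⊤ :=
  ContinuousMap.subalgebra_topologicalClosure_eq_top_of_separatesPoints _ sep

theorem adj_span (f : C(T2, ℝ)) (hf : f ∈ Algebra.adjoin ℝ SS) : f ∈ Submodule.span ℝ SS := by
  have h1 : f ∈ Subalgebra.toSubmodule (Algebra.adjoin ℝ SS) := hf
  rw [Algebra.adjoin_eq_span] at h1
  have h2 : (Submonoid.closure SS : Set C(T2, ℝ)) ⊆ SS := by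
    intro g hg
    induction hg using Submonoid.closure_induction with
    | mem x hx => exact hx
    | one => exact SS_one
    | mul x y _ _ hx hy => exact SS_mul hx hy
  exact Submodule.span_mono h2 h1

/-- convergence to zero of equi-Lipschitz functionals is a closed condition -/
theorem closed_aux {E : Type*} [NormedAddCommGroup E] (φ : ℕ → E → ℝ) (K : ℝ)
    (h : ∀ j x y, |φ j x - φ j y| ≤ K * ‖x - y‖) :
    IsClosed {x | Tendsto (fun j => φ j x) atTop (𝓝 0)} := by
  rw [← closure_subset_iff_isClosed]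
  intro x hx
  rw [Metric.mem_closure_iff] at hx
  show Tendsto (fun j => φ j x) atTop (𝓝 0)
  rw [Metric.tendsto_atTop]
  intro ε hε
  obtain ⟨y, hy, hxy⟩ := hx (ε / (2 * (|K| + 1))) (by positivity)
  have hy' : Tendsto (fun j => φ j y) atTop (𝓝 0) := hy
  obtain ⟨N, hN⟩ := (Metric.tendsto_atTop.1 hy') (ε / 2) (by positivity)
  refine ⟨N, fun j hj => ?_⟩
  have h1 := hN j hj
  rw [Real.dist_eq, sub_zero] at h1 ⊢
  have h2 := h j x y
  rw [dist_eq_norm] at hxy
  have h3 : K * ‖x - y‖ ≤ (|K| + 1) * ‖x - y‖ := by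
    apply mul_le_mul_of_nonneg_right _ (norm_nonneg _)
    linarith [le_abs_self K]
  have h4 : (|K| + 1) * ‖x - y‖ < ε / 2 := by
    have hK : 0 < |K| + 1 := by positivity
    have := mul_lt_mul_of_pos_left hxy hK
    calc _ < (|K| + 1) * (ε / (2 * (|K| + 1))) := this
      _ = ε / 2 := by field_simp
  calc |φ j x| = |(φ j x - φ j y) + φ j y| := by ring_nf
    _ ≤ |φ j x - φ j y| + |φ j y| := abs_add_le _ _
    _ < ε := by linarith

end Pool.Agent.X100.SM
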