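import Pool.Agent.X100.SM.C

set_option autoImplicit false

/-!
# Mixing of all orders
-/

namespace Pool.Agent.X100.SM

open Real MeasureTheory Function Filter Topology Pool.Agent.TH705.SM

theorem SS_le {F : C(T2, ℝ)} (hF : F ∈ SS) (p : T2) : |F p| ≤ 1 := by
  obtain ⟨g, h, hg, hh, e⟩ := hF
  obtain ⟨x, y⟩ := p
  obtain ⟨x, rfl⟩ := QuotientAddGroup.mk_surjective x
  obtain ⟨y, rfl⟩ := QuotientAddGroup.mk_surjective y
  have := e x y
  rw [this, abs_mul]
  exact mul_le_one₀ (hg.bd _) (abs_nonneg _) (hh.bd _)

/-- a uniform bound for finitely many derivatives -/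
theorem unif {κ : Type} [Fintype κ] {g : κ → ℝ → ℝ} (hg : ∀ k, Sm (g k)) :
    ∃ v, 0 ≤ v ∧ ∀ k x, |deriv (g k) x| ≤ v := by
  choose v hv using fun k => (hg k).bdd
  have hv0 : ∀ k, 0 ≤ v k := fun k => (abs_nonneg _).trans (hv k 0)
  refine ⟨∑ k, v k, Finset.sum_nonneg fun k _ => hv0 k, fun k x => (hv k x).trans ?_⟩
  exact Finset.single_le_sum (f := v) (fun i _ => hv0 i) (Finset.mem_univ k)

/-- the hypotheses on the times and parameters -/
structure Adm {κ : Type} (a : ℕ → ℝ) (τ : ℕ → κ → ℕ) : Prop where
  gap : ∀ j i k, i ≠ k → τ j i + 2 ≤ τ j k ∨ τ j k + 2 ≤ τ j i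
  lim : ∀ k, Tendsto (fun j => |a j| / (1 + τ j k)) atTop atTop

theorem base {κ : Type} [Fintype κ] [Nonempty κ] {a : ℕ → ℝ} {τ : ℕ → κ → ℕ} (H : Adm a τ)
    (F : κ → C(T2, ℝ)) (hF : ∀ k, F k ∈ SS) :
    Tendsto (fun j => (∫ p : T2, ∏ k, F k ((S (a j))^[τ j k] p)) - ∏ k, ∫ p, F k p) atTop
      (𝓝 0) := by
  choose g h hg hh e using hF
  obtain ⟨v1, v10, hv1⟩ := unif hg
  obtain ⟨v2, v20, hv2⟩ := unif hh
  -- the ratio tends to zero
  have hr : ∀ k, Tendsto (fun j => (1 + τ j k : ℝ) / |a j|) atTop (𝓝 0) := by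
    intro k
    have := (H.lim k).inv_tendsto_atTop
    refine this.congr fun j => ?_
    simp
  have hainf : Tendsto (fun j => |a j|) atTop atTop := by
    obtain ⟨k0⟩ := (inferInstance : Nonempty κ)
    refine tendsto_atTop_mono (fun j => ?_) (H.lim k0)
    apply div_le_self (abs_nonneg _)
    have : (0:ℝ) ≤ τ j k0 := Nat.cast_nonneg _
    linarith
  have ha1 : ∀ᶠ j in atTop, 1 ≤ |a j| := hainf.eventually_ge_atTop 1
  set C : ℝ := (Fintype.card (κ × Bool) : ℝ) with hC
  have hC0 : 0 ≤ C := Nat.cast_nonneg _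
  have hlim : Tendsto (fun j => (2 * l0 + 4) *
      √(C * ((2 * ∑ k, (1 + τ j k : ℝ) / |a j|)) * (1 + (v1 + v2)))) atTop (𝓝 0) := by
    have h1 : Tendsto (fun j => ∑ k, (1 + τ j k : ℝ) / |a j|) atTop (𝓝 (∑ _k : κ, (0:ℝ))) :=
      tendsto_finsetSum _ fun k _ => hr k
    rw [Finset.sum_const_zero] at h1
    have h2 : Tendsto (fun j => C * ((2 * ∑ k, (1 + τ j k : ℝ) / |a j|)) * (1 + (v1 + v2)))
        atTop (𝓝 (C * (2 * 0) * (1 + (v1 + v2)))) :=
      ((h1.const_mul 2).const_mul C).mul_const _
    have h3 := (h2.sqrt).const_mul (2 * l0 + 4)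
    simpa using h3
  refine squeeze_zero_norm' ?_ hlim
  filter_upwards [ha1] with j hj
  have ha0 : 0 < |a j| := by linarith
  rw [norm_eq_abs]
  have hrate := torus_rate (τ j) (H.gap j) (N := ∑ k, τ j k)
    (fun k => Finset.single_le_sum (f := τ j) (fun i _ => Nat.zero_le _) (Finset.mem_univ k))
    hg hh (v := v1 + v2) (fun k x => (hv1 k x).trans (by linarith))
    (fun k x => (hv2 k x).trans (by linarith)) (F := fun k => (F k : T2 → ℝ)) e
    (fun k => (F k).continuous) hj
  refine hrate.trans ?_
  have hl0 := l0_ge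
  apply mul_le_mul_of_nonneg_left _ (by linarith)
  apply Real.sqrt_le_sqrt
  have hN : (((∑ k, τ j k) + 2 : ℕ) : ℝ) ≤ 2 * ∑ k, (1 + τ j k : ℝ) := by
    push_cast
    rw [Finset.sum_add_distrib, Finset.sum_const, Finset.card_univ, nsmul_eq_mul, mul_one]
    have h1 : (1 : ℝ) ≤ Fintype.card κ := by exact_mod_cast Fintype.card_pos
    have h2 : (0 : ℝ) ≤ ∑ k, (τ j k : ℝ) := Finset.sum_nonneg fun k _ => Nat.cast_nonneg _
    linarith
  have e1 : (2 * ∑ k, (1 + τ j k : ℝ) / |a j|) = (2 * ∑ k, (1 + τ j k : ℝ)) / |a j| := by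
    rw [← Finset.sum_div, mul_div_assoc]
  rw [e1, div_eq_mul_inv, div_eq_mul_inv]
  have hv : 0 ≤ 1 + (v1 + v2) := by linarith
  have hi : 0 ≤ |a j|⁻¹ := by positivity
  calc C * (((∑ k, τ j k) + 2 : ℕ) : ℝ) * (1 + (v1 + v2)) * |a j|⁻¹ =
      (C * (1 + (v1 + v2)) * |a j|⁻¹) * (((∑ k, τ j k) + 2 : ℕ) : ℝ) := by ring
    _ ≤ (C * (1 + (v1 + v2)) * |a j|⁻¹) * (2 * ∑ k, (1 + τ j k : ℝ)) :=
        mul_le_mul_of_nonneg_left hN (by positivity)
    _ = _ := by ring

/-- from product observables to integrable ones, in one slot -/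
theorem slot {T : ℕ → T2 → T2} (hT : ∀ j, MeasurePreserving (T j) (volume : Measure T2) volume)
    {R : ℕ → T2 → ℝ} (hRm : ∀ j, Measurable (R j)) {B : ℝ} (hR : ∀ j p, |R j p| ≤ B) {c : ℝ}
    (hc : |c| ≤ B)
    (hconv : ∀ F ∈ SS, Tendsto (fun j => (∫ p : T2, F (T j p) * R j p) - (∫ p, F p) * c) atTop
      (𝓝 0))
    {F : T2 → ℝ} (hF : Integrable F) :
    Tendsto (fun j => (∫ p : T2, F (T j p) * R j p) - (∫ p, F p) * c) atTop (𝓝 0) := by
  have hB : 0 ≤ B := (abs_nonneg _).trans hc
  set φ : ℕ → (T2 → ℝ) → ℝ := fun j F => (∫ p : T2, F (T j p) * R j p) - (∫ p, F p) * c with hφ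
  have hi : ∀ j (G : T2 → ℝ), Integrable G → Integrable (fun p => G (T j p) * R j p) := by
    intro j G hG
    have h1 : Integrable (fun p => G (T j p)) := (hT j).integrable_comp_of_integrable hG
    refine (h1.mul_bdd (c := B) (hRm j).aestronglyMeasurable
      (Eventually.of_forall fun p => ?_))
    rw [norm_eq_abs]
    exact hR j p
  have hdiff : ∀ j (G G' : T2 → ℝ), Integrable G → Integrable G' →
      |φ j G - φ j G'| ≤ 2 * B * ∫ p, |G p - G' p| := by
    intro j G G' hG hG'
    have e1 : φ j G - φ j G' = (∫ p : T2, (G (T j p) - G' (T j p)) * R j p) -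
        (∫ p, (G p - G' p)) * c := by
      rw [integral_sub hG hG']
      have : (∫ p : T2, (G (T j p) - G' (T j p)) * R j p) =
          (∫ p : T2, G (T j p) * R j p) - ∫ p : T2, G' (T j p) * R j p := by
        rw [← integral_sub (hi j G hG) (hi j G' hG')]
        congr 1
        funext p
        ring
      rw [this]
      simp only [hφ]
      ring
    have hd : Integrable (fun p => |G p - G' p|) := (hG.sub hG').abs
    have e2 : ∫ p, |G (T j p) - G' (T j p)| = ∫ p, |G p - G' p| := by
      have h2 := integral_map (μ := (volume : Measure T2)) (hT j).measurable.aemeasurable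
        (f := fun p => |G p - G' p|) (by rw [(hT j).map_eq]; exact hd.aestronglyMeasurable)
      rw [(hT j).map_eq] at h2
      exact h2.symm
    have hdT : Integrable (fun p => |G (T j p) - G' (T j p)|) :=
      (hT j).integrable_comp_of_integrable hd
    have h3 : |∫ p : T2, (G (T j p) - G' (T j p)) * R j p| ≤ B * ∫ p, |G p - G' p| := by
      rw [← e2, ← integral_const_mul]
      refine (abs_integral_le_integral_abs).trans (integral_mono_of_nonneg
        (Eventually.of_forall fun p => abs_nonneg _) (hdT.const_mul B)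
        (Eventually.of_forall fun p => ?_))
      simp only
      rw [abs_mul, mul_comm B]
      exact mul_le_mul_of_nonneg_left (hR j p) (abs_nonneg _)
    have h4 : |(∫ p, (G p - G' p)) * c| ≤ B * ∫ p, |G p - G' p| := by
      rw [abs_mul, mul_comm B]
      exact mul_le_mul abs_integral_le_integral_abs hc (abs_nonneg _)
        (integral_nonneg fun p => abs_nonneg _)
    rw [e1]
    have := abs_sub (∫ p : T2, (G (T j p) - G' (T j p)) * R j p) ((∫ p, (G p - G' p)) * c)
    linarith
  -- continuous functions
  have hcont : ∀ G : C(T2, ℝ), Tendsto (fun j => φ j G) atTop (𝓝 0) := by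
    have hcl : IsClosed {G : C(T2, ℝ) | Tendsto (fun j => φ j G) atTop (𝓝 0)} := by
      refine closed_aux (fun j (G : C(T2, ℝ)) => φ j G) (2 * B) (fun j G G' => ?_)
      refine (hdiff j G G' (integrable_cont G.continuous) (integrable_cont G'.continuous)).trans ?_
      apply mul_le_mul_of_nonneg_left _ (by linarith)
      have h5 : ∫ p : T2, |G p - G' p| ≤ ∫ _p : T2, ‖G - G'‖ := by
        refine integral_mono_of_nonneg (Eventually.of_forall fun p => abs_nonneg _)
          (integrable_const _) (Eventually.of_forall fun p => ?_)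
        have := (G - G').norm_coe_le_norm p
        simpa [norm_eq_abs] using this
      simpa using h5
    have hspan : ∀ G ∈ Submodule.span ℝ SS, Tendsto (fun j => φ j (G : C(T2, ℝ))) atTop (𝓝 0) := by
      intro G hG
      induction hG using Submodule.span_induction with
      | mem x hx => exact hconv x hx
      | zero =>
        have : (fun j => φ j ((0 : C(T2, ℝ)) : T2 → ℝ)) = fun _ => 0 := by
          funext j
          simp [hφ]
        rw [this]
        exact tendsto_const_nhds
      | add x y _ _ hx hy =>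
        have := hx.add hy
        rw [add_zero] at this
        refine this.congr fun j => ?_
        have i1 := hi j x (integrable_cont x.continuous)
        have i2 := hi j y (integrable_cont y.continuous)
        have e1 : ∫ p : T2, (x + y : C(T2, ℝ)) (T j p) * R j p =
            (∫ p : T2, x (T j p) * R j p) + ∫ p : T2, y (T j p) * R j p := by
          rw [← integral_add i1 i2]
          congr 1
          funext p
          simp only [ContinuousMap.add_apply]
          ring
        have e2 : ∫ p : T2, (x + y : C(T2, ℝ)) p = (∫ p, x p) + ∫ p, y p := by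
          rw [← integral_add (integrable_cont x.continuous) (integrable_cont y.continuous)]
          rfl
        simp only [hφ]
        rw [e1, e2]
        ring
      | smul r x _ hx =>
        have := hx.const_mul r
        rw [mul_zero] at this
        refine this.congr fun j => ?_
        have e1 : ∫ p : T2, (r • x : C(T2, ℝ)) (T j p) * R j p =
            r * ∫ p : T2, x (T j p) * R j p := by
          rw [← integral_const_mul]
          congr 1
          funext p
          simp only [ContinuousMap.smul_apply, smul_eq_mul]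
          ring
        have e2 : ∫ p : T2, (r • x : C(T2, ℝ)) p = r * ∫ p, x p := by
          rw [← integral_const_mul]
          rfl
        simp only [hφ]
        rw [e1, e2]
        ring
    intro G
    have hG : G ∈ (Algebra.adjoin ℝ SS : Subalgebra ℝ C(T2, ℝ)).topologicalClosure := by
      rw [dense_C]
      trivial
    have hsub : ((Algebra.adjoin ℝ SS : Subalgebra ℝ C(T2, ℝ)) : Set C(T2, ℝ)) ⊆
        {G : C(T2, ℝ) | Tendsto (fun j => φ j G) atTop (𝓝 0)} :=
      fun x hx => hspan x (adj_span x hx)
    have hcl2 := closure_minimal hsub hcl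
    exact hcl2 hG
  rw [Metric.tendsto_atTop]
  intro ε hε
  obtain ⟨G, hG1, hG2⟩ := hF.exists_boundedContinuous_integral_sub_le
    (ε := ε / (4 * (B + 1))) (by positivity)
  obtain ⟨N, hN⟩ := (Metric.tendsto_atTop.1 (hcont G.toContinuousMap)) (ε / 2) (by positivity)
  refine ⟨N, fun j hj => ?_⟩
  have h1 := hN j hj
  rw [Real.dist_eq, sub_zero] at h1 ⊢
  have h2 := hdiff j F G hF hG2
  have h3 : ∫ p, |F p - G p| ≤ ε / (4 * (B + 1)) := by
    simpa [norm_eq_abs] using hG1
  have h4 : 2 * B * ∫ p, |F p - G p| ≤ ε / 2 := by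
    calc 2 * B * ∫ p, |F p - G p| ≤ 2 * B * (ε / (4 * (B + 1))) :=
          mul_le_mul_of_nonneg_left h3 (by linarith)
      _ = ε / 2 * (B / (B + 1)) := by field_simp; ring
      _ ≤ ε / 2 * 1 := by
          apply mul_le_mul_of_nonneg_left _ (by positivity)
          rw [div_le_one (by linarith)]
          linarith
      _ = _ := mul_one _
  have h5 : |φ j G| < ε / 2 := h1
  calc |φ j F| = |(φ j F - φ j G) + φ j G| := by ring_nf
    _ ≤ |φ j F - φ j G| + |φ j G| := abs_add_le _ _
    _ < ε := by linarith

theorem S_iter_mp (a : ℝ) (n : ℕ) :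
    MeasurePreserving ((S a)^[n]) (volume : Measure T2) volume := (S_mp a).iterate n

/-- the induction over the slots -/
theorem ind {κ : Type} [Fintype κ] [Nonempty κ] [DecidableEq κ] {a : ℕ → ℝ} {τ : ℕ → κ → ℕ}
    (H : Adm a τ) {B : ℝ} (hB : 1 ≤ B) (s : Finset κ) :
    ∀ F : κ → T2 → ℝ, (∀ k, Measurable (F k)) → (∀ k p, |F k p| ≤ B) →
      (∀ k, k ∉ s → ∃ G ∈ SS, F k = (G : T2 → ℝ)) →
      Tendsto (fun j => (∫ p : T2, ∏ k, F k ((S (a j))^[τ j k] p)) - ∏ k, ∫ p, F k p) atTop
        (𝓝 0) := by
  induction s using Finset.induction_on with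
  | empty =>
    intro F _ _ hF
    choose G hG hFG using fun k => hF k (Finset.notMem_empty k)
    have h := base H G hG
    simp_rw [hFG]
    exact h
  | insert k0 s hk0 ih =>
    intro F hFm hFB hF
    set R : ℕ → T2 → ℝ := fun j p => ∏ k ∈ Finset.univ.erase k0, F k ((S (a j))^[τ j k] p) with hR
    set c : ℝ := ∏ k ∈ Finset.univ.erase k0, ∫ p, F k p with hc
    set B' : ℝ := B ^ (Finset.univ.erase k0).card with hB'
    have hB0 : 0 ≤ B := by linarith
    have e1 : ∀ (G : T2 → ℝ) j p, ∏ k, (update F k0 G) k ((S (a j))^[τ j k] p) =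
        G ((S (a j))^[τ j k0] p) * R j p := by
      intro G j p
      rw [← Finset.mul_prod_erase _ _ (Finset.mem_univ k0), update_self]
      congr 1
      apply Finset.prod_congr rfl
      intro k hk
      rw [update_of_ne (Finset.ne_of_mem_erase hk)]
    have e2 : ∀ G : T2 → ℝ, ∏ k, ∫ p, (update F k0 G) k p = (∫ p, G p) * c := by
      intro G
      rw [← Finset.mul_prod_erase _ _ (Finset.mem_univ k0), update_self]
      congr 1
      apply Finset.prod_congr rfl
      intro k hk
      rw [update_of_ne (Finset.ne_of_mem_erase hk)]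
    have hint : Integrable (F k0) := by
      refine Integrable.of_bound (hFm k0).aestronglyMeasurable B (Eventually.of_forall fun p => ?_)
      rw [norm_eq_abs]
      exact hFB k0 p
    have hmain := slot (T := fun j => (S (a j))^[τ j k0]) (fun j => S_iter_mp (a j) (τ j k0))
      (R := R) (fun j => Finset.measurable_fun_prod _ fun k _ =>
        (hFm k).comp (S_iter_mp (a j) (τ j k)).measurable) (B := B') (fun j p => by
        rw [hR]
        simp only
        rw [Finset.abs_prod, hB', ← Finset.prod_const]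
        exact Finset.prod_le_prod (fun _ _ => abs_nonneg _) fun k _ => hFB k _) (c := c) (by
        rw [hc, Finset.abs_prod, hB', ← Finset.prod_const]
        refine Finset.prod_le_prod (fun _ _ => abs_nonneg _) fun k _ => ?_
        have h := norm_integral_le_of_norm_le_const (μ := (volume : Measure T2)) (f := F k)
          (C := B) (Eventually.of_forall fun p => by rw [norm_eq_abs]; exact hFB k p)
        simpa [norm_eq_abs] using h) (fun G hG => by
        have h := ih (update F k0 (G : T2 → ℝ)) (fun k => by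
            by_cases hk : k = k0
            · subst hk
              rw [update_self]
              exact G.continuous.measurable
            · rw [update_of_ne hk]
              exact hFm k) (fun k p => by
            by_cases hk : k = k0
            · subst hk
              rw [update_self]
              exact (SS_le hG p).trans hB
            · rw [update_of_ne hk]
              exact hFB k p) (fun k hk => by
            by_cases hk' : k = k0
            · subst hk'
              exact ⟨G, hG, by rw [update_self]⟩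
            · obtain ⟨G', h1, h2⟩ := hF k (by simp [hk, hk'])
              exact ⟨G', h1, by rw [update_of_ne hk', h2]⟩)
        simp_rw [e1, e2] at h
        exact h) hint
    have h3 := e1 (F k0)
    have h4 := e2 (F k0)
    rw [update_eq_self] at h3 h4
    simp_rw [h3, h4]
    exact hmain

theorem mix_all {κ : Type} [Fintype κ] [Nonempty κ] {a : ℕ → ℝ} {τ : ℕ → κ → ℕ}
    (H : Adm a τ) {B : ℝ} {F : κ → T2 → ℝ} (hF : ∀ k, Measurable (F k))
    (hB : ∀ k p, |F k p| ≤ B) :
    Tendsto (fun j => (∫ p : T2, ∏ k, F k ((S (a j))^[τ j k] p))) atTop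
        (𝓝 (∏ k, ∫ p, F k p)) := by
  classical
  have h := ind H (B := max 1 B) (le_max_left _ _) Finset.univ F hF
    (fun k p => (hB k p).trans (le_max_right _ _)) (fun k hk => absurd (Finset.mem_univ k) hk)
  have := h.add_const (∏ k, ∫ p, F k p)
  simpa using this

end Pool.Agent.X100.SM
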